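import Pool.Agent.Helper44.PR.CD7

/-!
# Orientation of the action on flags

Piece CD10 of the MP_339e9c_an development.
-/

namespace PR

open ContinuousLinearMap

namespace CD10

section par

variable {V : Type*} [AddCommGroup V] [Module ℂ V]

/-- `y` is a multiple of `x` -/
def Par (x y : V) : Prop := ∃ c : ℂ, y = c • x

theorem Par.refl (x : V) : Par x x := ⟨1, (one_smul _ _).symm⟩

theorem Par.symm {x y : V} (hy : y ≠ 0) (h : Par x y) : Par y x := by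
  obtain ⟨c, rfl⟩ := h
  have hc : c ≠ 0 := by
    rintro rfl
    simp at hy
  exact ⟨c⁻¹, by rw [smul_smul, inv_mul_cancel₀ hc, one_smul]⟩

theorem Par.trans {x y z : V} (h : Par x y) (h' : Par y z) : Par x z := by
  obtain ⟨c, rfl⟩ := h
  obtain ⟨d, rfl⟩ := h'
  exact ⟨d * c, by rw [smul_smul]⟩

theorem not_par_iff {x y : V} (hx : x ≠ 0) : ¬ Par x y ↔ LinearIndependent ℂ ![x, y] := by
  rw [LinearIndependent.pair_iff' hx]
  constructor
  · intro h a ha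
    exact h ⟨a, ha.symm⟩
  · rintro h ⟨c, hc⟩
    exact h c hc.symm

/-- the abstract form of the orientation argument -/
theorem orient_abs {I : Type*} {P Q R K : I → I → Prop} (hP : Equivalence P) (hQ : Equivalence Q)
    (hR : Equivalence R) (hK : Equivalence K)
    (H1 : ∀ p q, P p q → Q p q → R p q ∧ K p q)
    (H2 : ∀ p q, (P p q ∨ Q p q) ↔ (R p q ∨ K p q))
    (H3 : ∀ p q, R p q → K p q → P p q ∧ Q p q)
    (E1 : ∀ p, ∃ q, P p q ∧ ¬ Q p q)
    (E2 : ∀ p q, ¬ P p q → ∃ p' q', P p p' ∧ P q q' ∧ Q p' q') :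
    ((∀ p q, P p q → R p q) ∧ (∀ p q, Q p q → K p q)) ∨
    ((∀ p q, P p q → K p q) ∧ (∀ p q, Q p q → R p q)) := by
  -- step 1
  have s1 : ∀ p, (∀ q, P p q → R p q) ∨ (∀ q, P p q → K p q) := by
    intro p
    obtain ⟨q0, hq0, hq0'⟩ := E1 p
    rcases (H2 p q0).1 (Or.inl hq0) with h | h
    · left
      intro q hq
      by_contra hn
      have h1 : K p q := ((H2 p q).1 (Or.inl hq)).resolve_left hn
      have h2 : K q0 q := ((H2 q0 q).1 (Or.inl (hP.trans (hP.symm hq0) hq))).resolve_left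
        (fun h' => hn (hR.trans h h'))
      exact hq0' (H3 p q0 h (hK.trans h1 (hK.symm h2))).2
    · right
      intro q hq
      by_contra hn
      have h1 : R p q := ((H2 p q).1 (Or.inl hq)).resolve_right hn
      have h2 : R q0 q := ((H2 q0 q).1 (Or.inl (hP.trans (hP.symm hq0) hq))).resolve_right
        (fun h' => hn (hK.trans h h'))
      exact hq0' (H3 p q0 (hR.trans h1 (hR.symm h2)) h).2
  -- step 2
  have s2 : ∀ p q, (∀ q', P p q' → R p q') → (∀ q', P q q' → K q q') → False := by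
    intro p q hp hq
    by_cases hpq : P p q
    · obtain ⟨q0, hq0, hq0'⟩ := E1 q
      have h1 : R q q0 := hR.trans (hR.symm (hp q hpq)) (hp q0 (hP.trans hpq hq0))
      exact hq0' (H3 q q0 h1 (hq q0 hq0)).2
    · obtain ⟨p', q', h1, h2, h3⟩ := E2 p q hpq
      have hn : ¬ P p' q' := fun h => hpq (hP.trans h1 (hP.trans h (hP.symm h2)))
      obtain ⟨p'', h4, h4'⟩ := E1 p'
      obtain ⟨q'', h5, h5'⟩ := E1 q'
      rcases (H2 p' q').1 (Or.inr h3) with h | h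
      · have h6 : R p' p'' := hR.trans (hR.symm (hp p' h1)) (hp p'' (hP.trans h1 h4))
        rcases (H2 p'' q').2 (Or.inl (hR.trans (hR.symm h6) h)) with h7 | h7
        · exact hn (hP.trans h4 h7)
        · exact h4' (hQ.trans h3 (hQ.symm h7))
      · have h6 : K q' q'' := hK.trans (hK.symm (hq q' h2)) (hq q'' (hP.trans h2 h5))
        rcases (H2 p' q'').2 (Or.inr (hK.trans h h6)) with h7 | h7
        · exact hn (hP.trans h7 (hP.symm h5))
        · exact h5' (hQ.trans (hQ.symm h3) h7)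
  by_cases hall : ∀ p, ∀ q, P p q → R p q
  · left
    refine ⟨hall, fun p q hpq => ?_⟩
    by_cases hP' : P p q
    · exact (H1 p q hP' hpq).2
    · by_contra hn
      have h1 : R p q := ((H2 p q).1 (Or.inr hpq)).resolve_right hn
      obtain ⟨p'', h4, h4'⟩ := E1 p
      rcases (H2 p'' q).2 (Or.inl (hR.trans (hR.symm (hall p p'' h4)) h1)) with h7 | h7
      · exact hP' (hP.trans h4 h7)
      · exact h4' (hQ.trans hpq (hQ.symm h7))
  · right
    push Not at hall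
    obtain ⟨q, r, hqr, hqr'⟩ := hall
    have hq : ∀ q', P q q' → K q q' := (s1 q).resolve_left (fun h => hqr' (h r hqr))
    have hall : ∀ p, ∀ q, P p q → K p q := fun p => (s1 p).resolve_left (fun h => s2 p q h hq)
    refine ⟨hall, fun p q hpq => ?_⟩
    by_cases hP' : P p q
    · exact (H1 p q hP' hpq).1
    · by_contra hn
      have h1 : K p q := ((H2 p q).1 (Or.inr hpq)).resolve_left hn
      obtain ⟨p'', h4, h4'⟩ := E1 p
      rcases (H2 p'' q).2 (Or.inr (hK.trans (hK.symm (hall p p'' h4)) h1)) with h7 | h7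
      · exact hP' (hP.trans h4 h7)
      · exact h4' (hQ.trans hpq (hQ.symm h7))

end par

section flags

variable {X : Type*} [NormedAddCommGroup X] [NormedSpace ℂ X]

/-- flags -/
structure Flag (X : Type*) [NormedAddCommGroup X] [NormedSpace ℂ X] where
  /-- the vector -/
  x : X
  /-- the functional -/
  f : X →L[ℂ] ℂ
  hx : x ≠ 0
  hf : f ≠ 0
  h : f x = 0

/-- same direction of the vectors -/
def PX (p q : Flag X) : Prop := Par p.x q.x

/-- same direction of the functionals -/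
def PF (p q : Flag X) : Prop := Par p.f q.f

theorem PX_equiv : Equivalence (PX : Flag X → Flag X → Prop) :=
  ⟨fun _ => Par.refl _, fun {_ q} h => Par.symm q.hx h, fun h h' => Par.trans h h'⟩

theorem PF_equiv : Equivalence (PF : Flag X → Flag X → Prop) :=
  ⟨fun _ => Par.refl _, fun {_ q} h => Par.symm q.hf h, fun h h' => Par.trans h h'⟩

theorem exists_out {V : Type*} [AddCommGroup V] [Module ℂ V] (hX : Dim3 V) (x y : V) :
    ∃ z, z ∉ Submodule.span ℂ (Set.range ![x, y]) := by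
  by_contra hcon
  push Not at hcon
  obtain ⟨v, hv⟩ := hX
  have htop : Submodule.span ℂ (Set.range ![x, y]) = ⊤ := by
    rw [eq_top_iff]
    intro z _
    exact hcon z
  have hfin : Module.Finite ℂ V := ⟨by
    rw [← htop]
    exact Submodule.fg_span (Set.finite_range _)⟩
  have h1 := hv.fintype_card_le_finrank
  have h2 : Module.finrank ℂ V ≤ 2 := by
    have := finrank_range_le_card (R := ℂ) ![x, y]
    unfold Set.finrank at this
    rw [htop, finrank_top] at this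
    simpa using this
  simp at h1
  omega

theorem exists_common (hX : Dim3 X) (x y : X) :
    ∃ f : X →L[ℂ] ℂ, f ≠ 0 ∧ f x = 0 ∧ f y = 0 := by
  obtain ⟨z, hz⟩ := exists_out hX x y
  obtain ⟨f, hf, hfz⟩ := exists_dual_sep hz
  refine ⟨f, ?_, by simpa using hf 0, by simpa using hf 1⟩
  rintro rfl
  simp at hfz

theorem exists_other (hX : Dim3 X) {x : X} {f : X →L[ℂ] ℂ} (hf : f ≠ 0) :
    ∃ g : X →L[ℂ] ℂ, g ≠ 0 ∧ g x = 0 ∧ ¬ Par f g := by
  obtain ⟨y, hy⟩ : ∃ y, f y ≠ 0 := by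
    by_contra hcon
    push Not at hcon
    exact hf (ContinuousLinearMap.ext hcon)
  obtain ⟨g, hg, hgx, hgy⟩ := exists_common hX x y
  refine ⟨g, hg, hgx, ?_⟩
  rintro ⟨c, rfl⟩
  have : c = 0 := by
    rcases mul_eq_zero.1 (show c * f y = 0 from hgy) with h | h
    · exact h
    · exact absurd h hy
  subst this
  simp at hg

theorem E1 (hX : Dim3 X) (p : Flag X) : ∃ q, PX p q ∧ ¬ PF p q := by
  obtain ⟨g, hg, hgx, hn⟩ := exists_other hX (x := p.x) p.hf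
  exact ⟨⟨p.x, g, p.hx, hg, hgx⟩, Par.refl _, hn⟩

theorem E2 (hX : Dim3 X) (p q : Flag X) : ∃ p' q', PX p p' ∧ PX q q' ∧ PF p' q' := by
  obtain ⟨f, hf, h1, h2⟩ := exists_common hX p.x q.x
  exact ⟨⟨p.x, f, p.hx, hf, h1⟩, ⟨q.x, f, q.hx, hf, h2⟩, Par.refl _, Par.refl _, Par.refl _⟩

theorem zero_smul_dual (f : X →L[ℂ] ℂ) : (0 : ℂ) • f = 0 := by
  ext z
  simp

theorem rk_smul_smul (u : X) (k : X →L[ℂ] ℂ) (c d : ℂ) :
    rk (c • u) (d • k) = (c * d) • rk u k := by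
  ext z
  simp only [rk_apply, smul_apply, smul_smul, smul_eq_mul]
  congr 1
  ring

/-- a vector killed by two functionals -/
theorem exists_ker (hX : Dim3 X) (f g : X →L[ℂ] ℂ) : ∃ z : X, z ≠ 0 ∧ f z = 0 ∧ g z = 0 := by
  obtain ⟨v, hv⟩ := hX
  -- the map `c ↦ (f (Σ c i v i), g (Σ c i v i))` from `ℂ³` to `ℂ²` has a kernel
  let L : (Fin 3 → ℂ) →ₗ[ℂ] X := Fintype.linearCombination ℂ v
  let M : (Fin 3 → ℂ) →ₗ[ℂ] (Fin 2 → ℂ) :=
    LinearMap.pi ![f.toLinearMap ∘ₗ L, g.toLinearMap ∘ₗ L]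
  have hker : LinearMap.ker M ≠ ⊥ := by
    apply LinearMap.ker_ne_bot_of_finrank_lt
    simp
  obtain ⟨c, hc, hc0⟩ := (Submodule.ne_bot_iff _).1 hker
  refine ⟨L c, ?_, ?_, ?_⟩
  · intro h
    apply hc0
    have hinj : Function.Injective L := by
      intro a b hab
      exact (linearIndependent_iff_injective_fintypeLinearCombination.1 hv) hab
    exact hinj (by rw [h, map_zero])
  · have := congrFun (LinearMap.mem_ker.1 hc) 0
    simpa [M] using this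
  · have := congrFun (LinearMap.mem_ker.1 hc) 1
    simpa [M] using this

/-- rank one operators with equal scalar perturbations -/
theorem rk_unique (hX : Dim3 X) {x y : X} {f g : X →L[ℂ] ℂ} {α : ℂ} (hx : x ≠ 0) (hy : y ≠ 0)
    (hg : g ≠ 0) (h : rk x f = rk y g + α • (1 : X →L[ℂ] X)) :
    α = 0 ∧ Par x y ∧ Par f g := by
  have hα : α = 0 := by
    obtain ⟨z, hz, hfz, hgz⟩ := exists_ker hX f g
    have := congrArg (fun T : X →L[ℂ] X => T z) h
    simp [hfz, hgz] at this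
    rcases smul_eq_zero.1 this.symm with h1 | h1
    · exact h1
    · exact absurd h1 hz
  subst hα
  have h' : ∀ z, f z • x = g z • y := by
    intro z
    have := congrArg (fun T : X →L[ℂ] X => T z) h
    simpa using this
  obtain ⟨z, hz⟩ : ∃ z, g z ≠ 0 := by
    by_contra hcon
    push Not at hcon
    exact hg (ContinuousLinearMap.ext hcon)
  have hyx : y = ((g z)⁻¹ * f z) • x := by
    rw [← smul_smul, h' z, smul_smul, inv_mul_cancel₀ hz, one_smul]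
  refine ⟨rfl, ⟨_, hyx⟩, ?_⟩
  set c := (g z)⁻¹ * f z with hc
  have hc0 : c ≠ 0 := by
    intro h0
    rw [h0, zero_smul] at hyx
    exact hy hyx
  refine ⟨c⁻¹, ?_⟩
  ext w
  have h1 := h' w
  rw [hyx, smul_smul] at h1
  have h2 : f w = g w * c := smul_left_injective ℂ hx h1
  show g w = c⁻¹ * f w
  rw [h2]
  field_simp

end flags

section main

variable {X : Type*} [NormedAddCommGroup X] [NormedSpace ℂ X] [CompleteSpace X]
variable {Y : Type*} [NormedAddCommGroup Y] [NormedSpace ℂ Y] [CompleteSpace Y]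
variable {σ : ℂ}

theorem bra_scalar (hσ : σ = 1 ∨ σ = -1) {γ : ℂ} (hγ : σ = 1 → γ = 0) (T S : X →L[ℂ] X) :
    bra σ (T + γ • (1 : X →L[ℂ] X)) S = bra σ T S := by
  rcases hσ with rfl | rfl
  · rw [hγ rfl, zero_smul, add_zero]
  · exact bra_add_scalar T S γ

theorem sr_flag (hσ : σ = 1 ∨ σ = -1) {γ : ℂ} (hγ : σ = 1 → γ = 0) {u : X} {k : X →L[ℂ] ℂ}
    (hku : k u = 0) (S : X →L[ℂ] X) :
    sr (bra σ (rk u k + γ • (1 : X →L[ℂ] X)) S) = ‖k (S u)‖ := by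
  rw [bra_scalar hσ hγ, sr_bra_comm hσ S (rk u k), sr_bra_flag hσ _ hku]

theorem lp_scalar (hσ : σ = 1 ∨ σ = -1) {γ δ : ℂ} (hγ : σ = 1 → γ = 0) (hδ : σ = 1 → δ = 0)
    {A B : X →L[ℂ] X} (h : LPcd σ A B) :
    LPcd σ (A + γ • (1 : X →L[ℂ] X)) (B + δ • (1 : X →L[ℂ] X)) := by
  rcases hσ with rfl | rfl
  · rw [hγ rfl, hδ rfl, zero_smul, add_zero, add_zero]
    exact h
  · obtain ⟨C, h1, h2, h3, -⟩ := h
    refine ⟨C, fun S => ?_, ?_, ?_, fun h => ?_⟩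
    · simp only [bra_add_scalar]
      exact h1 S
    · simp only [bra_add_scalar]
      exact h2
    · simp only [bra_add_scalar]
      exact h3
    · norm_num at h

/-- adjacency of flags -/
def Adj (p q : Flag X) : Prop := (PX p q ∧ ¬ PF p q) ∨ (¬ PX p q ∧ PF p q)

theorem adj_iff (hσ : σ = 1 ∨ σ = -1) (hX : Dim3 X) {γ δ : ℂ} (hγ : σ = 1 → γ = 0)
    (hδ : σ = 1 → δ = 0) (p q : Flag X) :
    Adj p q ↔ LPcd σ (rk p.x p.f + γ • (1 : X →L[ℂ] X)) (rk q.x q.f + δ • (1 : X →L[ℂ] X)) := by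
  constructor
  · intro h
    apply lp_scalar hσ hγ hδ
    rcases h with ⟨⟨c, hc⟩, hn⟩ | ⟨hn, ⟨c, hc⟩⟩
    · have hc0 : c ≠ 0 := by
        rintro rfl
        exact q.hx (by rw [hc, zero_smul])
      have e : rk q.x q.f = rk p.x (c • q.f) := by
        ext z
        simp [hc, smul_smul, mul_comm]
      rw [e]
      refine lpcd_left hσ p.hx ((not_par_iff p.hf).1 ?_) p.h ?_
      · rintro ⟨d, hd⟩
        refine hn ⟨c⁻¹ * d, ?_⟩
        rw [← smul_smul, ← hd, smul_smul, inv_mul_cancel₀ hc0, one_smul]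
      · have := q.h
        rw [hc, map_smul] at this
        exact this
    · have hc0 : c ≠ 0 := by
        rintro rfl
        exact q.hf (by rw [hc, zero_smul_dual])
      have e : rk q.x q.f = rk (c • q.x) p.f := by
        ext z
        simp [hc, smul_smul, mul_comm]
      rw [e]
      refine lpcd_right hσ ((not_par_iff p.hx).1 ?_) p.hf p.h ?_
      · rintro ⟨d, hd⟩
        refine hn ⟨c⁻¹ * d, ?_⟩
        rw [← smul_smul, ← hd, smul_smul, inv_mul_cancel₀ hc0, one_smul]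
      · have := q.h
        rw [hc] at this
        rw [map_smul]
        exact this
  · intro h
    obtain ⟨x, y, f, g, α, β, hx, hy, hf, hg, -, -, hA, hB, -, hor⟩ := rec_cd hσ hX h
    have hA' : rk p.x p.f = rk x f + (α - γ) • (1 : X →L[ℂ] X) := by
      rw [sub_smul, ← add_sub_assoc, ← hA, add_sub_cancel_right]
    have hB' : rk q.x q.f = rk y g + (β - δ) • (1 : X →L[ℂ] X) := by
      rw [sub_smul, ← add_sub_assoc, ← hB, add_sub_cancel_right]
    obtain ⟨-, a1, a2⟩ := rk_unique hX p.hx hx hf hA'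
    obtain ⟨-, b1, b2⟩ := rk_unique hX q.hx hy hg hB'
    rcases hor with ⟨h1, h2⟩ | ⟨h1, h2⟩
    · left
      refine ⟨Par.trans a1 (Par.trans h1 (Par.symm hy b1)), fun hn => ?_⟩
      exact (not_par_iff hf).2 h2 (Par.trans (Par.symm hf a2) (Par.trans hn b2))
    · right
      refine ⟨fun hn => ?_, Par.trans a2 (Par.trans h2 (Par.symm hg b2))⟩
      exact (not_par_iff hx).2 h1 (Par.trans (Par.symm hx a1) (Par.trans hn b1))

omit [CompleteSpace X] in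
theorem par_sr {p q : Flag X} (h1 : PX p q) (h2 : PF p q) (S : X →L[ℂ] X) :
    p.f (S p.x) = 0 ↔ q.f (S q.x) = 0 := by
  obtain ⟨c, hc⟩ := h1
  obtain ⟨d, hd⟩ := h2
  have hc0 : c ≠ 0 := by
    rintro rfl
    exact q.hx (by rw [hc, zero_smul])
  have hd0 : d ≠ 0 := by
    rintro rfl
    exact q.hf (by rw [hd, zero_smul_dual])
  rw [hc, hd, map_smul]
  simp [hc0, hd0]

end main

end CD10

open CD10

variable {X : Type*} [NormedAddCommGroup X] [NormedSpace ℂ X] [CompleteSpace X]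
variable {Y : Type*} [NormedAddCommGroup Y] [NormedSpace ℂ Y] [CompleteSpace Y]
variable {σ : ℂ}

/-- images of flags -/
theorem cd_image_flag (hσ : σ = 1 ∨ σ = -1) (hX : Dim3 X) (hY : Dim3 Y)
    {φ : (X →L[ℂ] X) → (Y →L[ℂ] Y)} (hs : Function.Surjective φ)
    (h : ∀ T S, sr (bra σ (φ T) (φ S)) = sr (bra σ T S)) {x : X} {f : X →L[ℂ] ℂ}
    (hx : x ≠ 0) (hf : f ≠ 0) (hfx : f x = 0) :
    ∃ (u : Y) (k : Y →L[ℂ] ℂ) (γ : ℂ), u ≠ 0 ∧ k ≠ 0 ∧ k u = 0 ∧
      φ (rk x f) = rk u k + γ • (1 : Y →L[ℂ] Y) ∧ (σ = 1 → γ = 0) := by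
  obtain ⟨g, hg, hgx, hn⟩ := exists_other hX (x := x) hf
  have h1 := lpcd_left hσ hx ((not_par_iff hf).1 hn) hfx hgx
  rw [lpcd_map hσ hs h] at h1
  obtain ⟨u, v, k, l, α, β, hu, -, hk, -, hku, -, hA, -, hαβ, -⟩ := rec_cd hσ hY h1
  exact ⟨u, k, α, hu, hk, hku, hA, fun e => (hαβ e).1⟩

/-- every flag is an image -/
theorem cd_flag_surj (hσ : σ = 1 ∨ σ = -1) (hX : Dim3 X) (hY : Dim3 Y)
    {φ : (X →L[ℂ] X) → (Y →L[ℂ] Y)} (hs : Function.Surjective φ)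
    (h : ∀ T S, sr (bra σ (φ T) (φ S)) = sr (bra σ T S)) {u : Y} {k : Y →L[ℂ] ℂ}
    (hu : u ≠ 0) (hk : k ≠ 0) (hku : k u = 0) :
    ∃ (x : X) (f : X →L[ℂ] ℂ) (c γ : ℂ), x ≠ 0 ∧ f ≠ 0 ∧ f x = 0 ∧ c ≠ 0 ∧
      φ (rk x f) = c • rk u k + γ • (1 : Y →L[ℂ] Y) := by
  obtain ⟨l, hl, hlu, hn⟩ := exists_other hY (x := u) hk
  have h1 := lpcd_left hσ hu ((not_par_iff hk).1 hn) hku hlu
  obtain ⟨T1, hT1⟩ := hs (rk u k)
  obtain ⟨T2, hT2⟩ := hs (rk u l)
  rw [← hT1, ← hT2, ← lpcd_map hσ hs h] at h1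
  obtain ⟨x, y, f, g, α, β, hx, -, hf, -, hfx, -, hA, -, hαβ, -⟩ := rec_cd hσ hX h1
  have hα : σ = 1 → α = 0 := fun e => (hαβ e).1
  obtain ⟨v, l', γ, hv, hl', hlv, hφ, hγ⟩ := cd_image_flag hσ hX hY hs h hx hf hfx
  have hT : ∀ S, sr (bra σ T1 S) = 0 ↔ sr (bra σ (rk x f) S) = 0 := by
    intro S
    rw [hA, bra_scalar hσ hα]
  obtain ⟨⟨c1, hc1⟩, ⟨c2, hc2⟩⟩ := cd_parallel hσ hs h hT hu hv hk hl' hku hlv
    (α := 0) (β := γ) (by rw [hT1, zero_smul, add_zero]) hφ (fun e => ⟨rfl, hγ e⟩)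
  refine ⟨x, f, c1 * c2, γ, hx, hf, hfx, ?_, ?_⟩
  · refine mul_ne_zero ?_ ?_
    · rintro rfl
      exact hv (by rw [hc1, zero_smul])
    · rintro rfl
      exact hl' (by rw [hc2, zero_smul_dual])
  · rw [hφ, hc1, hc2, rk_smul_smul]

theorem cd_orient (hσ : σ = 1 ∨ σ = -1) (hX : Dim3 X) (hY : Dim3 Y)
    {φ : (X →L[ℂ] X) → (Y →L[ℂ] Y)} (hs : Function.Surjective φ)
    (h : ∀ T S, sr (bra σ (φ T) (φ S)) = sr (bra σ T S)) :
    (∃ (π : X → Y) (κ : (X →L[ℂ] ℂ) → (Y →L[ℂ] ℂ)),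
      (∀ x, x ≠ 0 → π x ≠ 0) ∧ (∀ f, f ≠ 0 → κ f ≠ 0) ∧
      ∀ x f, x ≠ 0 → f ≠ 0 → f x = 0 → κ f (π x) = 0 ∧
        ∃ c γ : ℂ, c ≠ 0 ∧ (σ = 1 → γ = 0) ∧
          φ (rk x f) = c • rk (π x) (κ f) + γ • (1 : Y →L[ℂ] Y)) ∨
    (∃ (π : (X →L[ℂ] ℂ) → Y) (κ : X → (Y →L[ℂ] ℂ)),
      (∀ f, f ≠ 0 → π f ≠ 0) ∧ (∀ x, x ≠ 0 → κ x ≠ 0) ∧
      ∀ x f, x ≠ 0 → f ≠ 0 → f x = 0 → κ x (π f) = 0 ∧
        ∃ c γ : ℂ, c ≠ 0 ∧ (σ = 1 → γ = 0) ∧
          φ (rk x f) = c • rk (π f) (κ x) + γ • (1 : Y →L[ℂ] Y)) := by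
  have himg : ∀ p : Flag X, ∃ (q : Flag Y) (γ : ℂ),
      φ (rk p.x p.f) = rk q.x q.f + γ • (1 : Y →L[ℂ] Y) ∧ (σ = 1 → γ = 0) := by
    intro p
    obtain ⟨u, k, γ, hu, hk, hku, hφ, hγ⟩ := cd_image_flag hσ hX hY hs h p.hx p.hf p.h
    exact ⟨⟨u, k, hu, hk, hku⟩, γ, hφ, hγ⟩
  choose Φ Γ hΦ hΓ using himg
  -- adjacency
  have hadj : ∀ p q, Adj p q ↔ Adj (Φ p) (Φ q) := by
    intro p q
    rw [adj_iff hσ hX (γ := 0) (δ := 0) (fun _ => rfl) (fun _ => rfl), zero_smul, add_zero,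
      add_zero, lpcd_map hσ hs h, hΦ, hΦ, adj_iff hσ hY (hΓ p) (hΓ q)]
  have hsrX : ∀ (p : Flag X) S, sr (bra σ (rk p.x p.f) S) = ‖p.f (S p.x)‖ := by
    intro p S
    have := sr_flag hσ (γ := 0) (fun _ => rfl) p.h S
    rwa [zero_smul, add_zero] at this
  -- parallel flags have parallel images
  have H1 : ∀ p q, PX p q → PF p q → PX (Φ p) (Φ q) ∧ PF (Φ p) (Φ q) := by
    intro p q h1 h2
    refine cd_parallel hσ hs h (T := rk p.x p.f) (T' := rk q.x q.f) (fun S => ?_) (Φ p).hx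
      (Φ q).hx (Φ p).hf (Φ q).hf (Φ p).h (Φ q).h (hΦ p) (hΦ q) (fun e => ⟨hΓ p e, hΓ q e⟩)
    rw [hsrX, hsrX, norm_eq_zero, norm_eq_zero]
    exact par_sr h1 h2 S
  -- flags with parallel images are parallel
  have H3 : ∀ p q, PX (Φ p) (Φ q) → PF (Φ p) (Φ q) → PX p q ∧ PF p q := by
    intro p q h1 h2
    have hT : ∀ S, sr (bra σ (rk p.x p.f) S) = 0 ↔ sr (bra σ (rk q.x q.f) S) = 0 := by
      intro S
      rw [← h (rk p.x p.f) S, ← h (rk q.x q.f) S, hΦ p, hΦ q, sr_flag hσ (hΓ p) (Φ p).h,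
        sr_flag hσ (hΓ q) (Φ q).h, norm_eq_zero, norm_eq_zero]
      exact par_sr h1 h2 _
    exact cd_parallel (φ := id) hσ Function.surjective_id (fun _ _ => rfl) hT (α := 0) (β := 0)
      p.hx q.hx p.hf q.hf p.h q.h (by simp) (by simp) (fun _ => ⟨rfl, rfl⟩)
  have H2 : ∀ p q, (PX p q ∨ PF p q) ↔ (PX (Φ p) (Φ q) ∨ PF (Φ p) (Φ q)) := by
    intro p q
    have ha := hadj p q
    have h1 := H1 p q
    have h3 := H3 p q
    unfold Adj at ha
    tauto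
  have key := orient_abs (P := PX) (Q := PF) (R := fun p q => PX (Φ p) (Φ q))
    (K := fun p q => PF (Φ p) (Φ q)) PX_equiv PF_equiv
    ⟨fun p => PX_equiv.refl _, fun h => PX_equiv.symm h, fun h h' => PX_equiv.trans h h'⟩
    ⟨fun p => PF_equiv.refl _, fun h => PF_equiv.symm h, fun h h' => PF_equiv.trans h h'⟩
    H1 H2 H3 (E1 hX) (fun p q _ => E2 hX p q)
  have exf : ∀ x : X, x ≠ 0 → ∃ p : Flag X, p.x = x := by
    intro x hx
    obtain ⟨f, hf, hfx, -⟩ := exists_common hX x x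
    exact ⟨⟨x, f, hx, hf, hfx⟩, rfl⟩
  have exx : ∀ f : X →L[ℂ] ℂ, f ≠ 0 → ∃ p : Flag X, p.f = f := by
    intro f hf
    obtain ⟨x, hx, hfx, -⟩ := exists_ker hX f f
    exact ⟨⟨x, f, hx, hf, hfx⟩, rfl⟩
  rcases key with ⟨k1, k2⟩ | ⟨k1, k2⟩
  · left
    have h1 : ∀ x : X, ∃ u : Y, x ≠ 0 → u ≠ 0 ∧ ∀ p : Flag X, p.x = x → Par u (Φ p).x := by
      intro x
      by_cases hx : x = 0
      · exact ⟨0, fun h0 => absurd hx h0⟩
      · obtain ⟨p0, hp0⟩ := exf x hx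
        refine ⟨(Φ p0).x, fun _ => ⟨(Φ p0).hx, fun p hp => k1 p0 p ?_⟩⟩
        unfold PX
        rw [hp0, hp]
        exact Par.refl _
    have h2 : ∀ f : X →L[ℂ] ℂ, ∃ k : Y →L[ℂ] ℂ, f ≠ 0 →
        k ≠ 0 ∧ ∀ p : Flag X, p.f = f → Par k (Φ p).f := by
      intro f
      by_cases hf : f = 0
      · exact ⟨0, fun h0 => absurd hf h0⟩
      · obtain ⟨p0, hp0⟩ := exx f hf
        refine ⟨(Φ p0).f, fun _ => ⟨(Φ p0).hf, fun p hp => k2 p0 p ?_⟩⟩
        unfold PF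
        rw [hp0, hp]
        exact Par.refl _
    choose π hπ using h1
    choose κ hκ using h2
    refine ⟨π, κ, fun x hx => (hπ x hx).1, fun f hf => (hκ f hf).1, fun x f hx hf hfx => ?_⟩
    obtain ⟨c1, hc1⟩ := (hπ x hx).2 ⟨x, f, hx, hf, hfx⟩ rfl
    obtain ⟨c2, hc2⟩ := (hκ f hf).2 ⟨x, f, hx, hf, hfx⟩ rfl
    have hc10 : c1 ≠ 0 := by
      rintro rfl
      exact (Φ ⟨x, f, hx, hf, hfx⟩).hx (by rw [hc1, zero_smul])
    have hc20 : c2 ≠ 0 := by
      rintro rfl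
      exact (Φ ⟨x, f, hx, hf, hfx⟩).hf (by rw [hc2, zero_smul_dual])
    constructor
    · have := (Φ ⟨x, f, hx, hf, hfx⟩).h
      rw [hc1, hc2] at this
      simpa [hc10, hc20] using this
    · refine ⟨c1 * c2, Γ ⟨x, f, hx, hf, hfx⟩, mul_ne_zero hc10 hc20, hΓ _, ?_⟩
      have := hΦ ⟨x, f, hx, hf, hfx⟩
      simp only at this
      rw [this, hc1, hc2, rk_smul_smul]
  · right
    have h1 : ∀ x : X, ∃ k : Y →L[ℂ] ℂ, x ≠ 0 → k ≠ 0 ∧ ∀ p : Flag X, p.x = x → Par k (Φ p).f := by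
      intro x
      by_cases hx : x = 0
      · exact ⟨0, fun h0 => absurd hx h0⟩
      · obtain ⟨p0, hp0⟩ := exf x hx
        refine ⟨(Φ p0).f, fun _ => ⟨(Φ p0).hf, fun p hp => k1 p0 p ?_⟩⟩
        unfold PX
        rw [hp0, hp]
        exact Par.refl _
    have h2 : ∀ f : X →L[ℂ] ℂ, ∃ u : Y, f ≠ 0 →
        u ≠ 0 ∧ ∀ p : Flag X, p.f = f → Par u (Φ p).x := by
      intro f
      by_cases hf : f = 0
      · exact ⟨0, fun h0 => absurd hf h0⟩
      · obtain ⟨p0, hp0⟩ := exx f hf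
        refine ⟨(Φ p0).x, fun _ => ⟨(Φ p0).hx, fun p hp => k2 p0 p ?_⟩⟩
        unfold PF
        rw [hp0, hp]
        exact Par.refl _
    choose κ hκ using h1
    choose π hπ using h2
    refine ⟨π, κ, fun f hf => (hπ f hf).1, fun x hx => (hκ x hx).1, fun x f hx hf hfx => ?_⟩
    obtain ⟨c1, hc1⟩ := (hπ f hf).2 ⟨x, f, hx, hf, hfx⟩ rfl
    obtain ⟨c2, hc2⟩ := (hκ x hx).2 ⟨x, f, hx, hf, hfx⟩ rfl
    have hc10 : c1 ≠ 0 := by
      rintro rfl
      exact (Φ ⟨x, f, hx, hf, hfx⟩).hx (by rw [hc1, zero_smul])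
    have hc20 : c2 ≠ 0 := by
      rintro rfl
      exact (Φ ⟨x, f, hx, hf, hfx⟩).hf (by rw [hc2, zero_smul_dual])
    constructor
    · have := (Φ ⟨x, f, hx, hf, hfx⟩).h
      rw [hc1, hc2] at this
      simpa [hc10, hc20] using this
    · refine ⟨c1 * c2, Γ ⟨x, f, hx, hf, hfx⟩, mul_ne_zero hc10 hc20, hΓ _, ?_⟩
      have := hΦ ⟨x, f, hx, hf, hfx⟩
      simp only at this
      rw [this, hc1, hc2, rk_smul_smul]

end PR
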